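import Pool.Agent.Lib.MP_813db1_ag.CM.Top
import Pool.Agent.Lib.MP_bbd4b9_ag.NH.Alg

/-! Canonical lifts when the monodromy is finite. -/

namespace Pool.Agent.Lib.MP_813db1_ag.CM

open Subgroup Pool.Agent.Lib.MP_813db1_ag.AS Pool.Agent.Lib.MP_bbd4b9_ag.AR
  Pool.Agent.Lib.MP_bbd4b9_ag.NH Pool.Agent.Lib.MP_bbd4b9_ag.NH.Al
open scoped Pointwise

variable {G E : Type} [Group G] [Group E]

/-- canonical lifts exist for all commensurated nilpotent subgroups. -/
def CanAll (Γ : Subgroup G) : Prop := ∀ (E : Type) [Group E] (c : CE G E) (N : Subgroup G),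
  N.FG → Group.IsVirtuallyNilpotent N → Cmn N → ∃ T, CanR c Γ N T

theorem maxQ_min {N K Γ : Subgroup G} (hΓ : MaxQ Γ) (k1 : K.Normal) (k2 : K.relIndex Γ ≠ 0)
    (k3 : ∀ K' ≤ K, K'.Normal → K'.relIndex Γ ≠ 0 → (N ⊓ K').relIndex (N ⊓ K) ≠ 0) :
    MaxQ (N ⊓ K) := by
  intro H _ φ h hh
  have a : H.normalCore ⊓ Γ ≤ (φ.ker.map H.subtype).normalCore := fun γ hγ g => by
    have m : ∀ x : H.normalCore, g * x * g⁻¹ ∈ H := fun x => x.2 g
    refine ⟨⟨_, m ⟨γ, hγ.1⟩⟩, hΓ H.normalCore inferInstance (MonoidHom.mk' (fun x => φ ⟨_, m x⟩)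
      fun x y => ?_) ⟨γ, hγ.1⟩ hγ.2, rfl⟩
    rw [← map_mul]
    congr 1
    ext
    simp [mul_assoc]
  have b : (φ.ker.map H.subtype).normalCore.relIndex Γ ≠ 0 := fun e =>
    FiniteIndex.index_ne_zero (H := H.normalCore.subgroupOf Γ) (by
      have := relIndex_eq_zero_of_le_left a e
      rwa [inf_relIndex_right] at this)
  obtain ⟨m, m0, -, hm⟩ := exists_pow_mem_of_relIndex_ne_zero
    (k3 (K ⊓ (φ.ker.map H.subtype).normalCore) inf_le_left inferInstance
      (relIndex_inf_ne_zero k2 b)) hh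
  obtain ⟨x, x1, x2⟩ := normalCore_le _ hm.1.2.2
  have e : φ h ^ m = 1 := by
    rw [← map_pow, show h ^ m = x from Subtype.ext x2.symm]
    exact x1
  exact (pow_eq_one_iff_left m0.ne').1 e

theorem comm_of (c : CE G E) {C Γ : Subgroup G} [C.FiniteIndex] (hΓ : MaxQ Γ) {x y : E}
    (hx : ∀ g ∈ C, g * c.π x = c.π x * g) (h1 : c.π y ∈ C) (h2 : c.π y ∈ Γ) : y * x = x * y := by
  have a : ∀ z : E, c.π z ∈ C → ∃ t, c.ζ t = z * x * z⁻¹ * x⁻¹ := fun z hz => (c.ker _).1 (by
    simp only [map_mul, map_inv]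
    rw [hx _ hz]
    group)
  choose s hs using c.surj
  choose t ht using fun g : C => a (s g) (by rw [hs]; exact g.2)
  have b : ∀ (g : C) z, c.π z = g → c.ζ (t g) = z * x * z⁻¹ * x⁻¹ := fun g z hz => by
    obtain ⟨u, hu⟩ := (c.ker ((s g)⁻¹ * z)).1 (by simp [hs, hz])
    have e : z = s g * c.ζ u := by rw [hu]; group
    rw [ht, e, mul_assoc (s g) (c.ζ u) x, c.cen]
    group
  have := hΓ C inferInstance (MonoidHom.mk' t fun g g' => c.inj (by
    rw [b (g * g') (s g * s g') (by simp [hs]), map_mul, ht g]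
    have e : s g' * x * (s g')⁻¹ = c.ζ (t g') * x := by rw [ht]; group
    calc s g * s g' * x * (s g * s g')⁻¹ * x⁻¹
        = s g * (s g' * x * (s g')⁻¹) * (s g)⁻¹ * x⁻¹ := by group
      _ = c.ζ (t g') * (s g * x * (s g)⁻¹ * x⁻¹) := by
        rw [e, ← mul_assoc, ← c.cen]
        group
      _ = _ := c.cen _ _)) ⟨_, h1⟩ h2
  have e := b ⟨_, h1⟩ y rfl
  rw [show t ⟨_, h1⟩ = 1 from this, map_one, eq_comm, mul_inv_eq_one, mul_inv_eq_iff_eq_mul] at e
  exact e

theorem canAll (h1 : RkN) (h5 : CanN) (hG : VCen G) {Γ : Subgroup G} (hΓ : MaxQ Γ) :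
    CanAll Γ := by
  intro E _ c N n1 n2 n3
  obtain ⟨f, hf⟩ := h1 G N n1 n2
  obtain ⟨K, k1, k2, k3⟩ := min (Γ := Γ) hf
  have cP : Cmn (N ⊓ K) := fun g => cm_inf (n3 g) (cj_self fun x => by
    simpa using (k1.mem_comm_iff (a := g⁻¹ * x) (b := g)).symm)
  obtain ⟨Q, q1, q2, q3⟩ := hG (N ⊓ K) (sub n1 n2 inf_le_left).1 (sub n1 n2 inf_le_left).2
    (by
      rw [(eq_top_iff' _).2 fun g => (Commensurable.commensurator_mem_iff _ g).2 (cP g)]
      infer_instance) (maxQ_min hΓ k1 k2 k3)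
  have ri : ∀ L : Subgroup G, (centralizer (Q : Set G)).relIndex L ≠ 0 := fun L =>
    FiniteIndex.index_ne_zero
  have s2 : (Q ⊓ centralizer (Q : Set G)).relIndex (N ⊓ K) ≠ 0 := relIndex_inf_ne_zero q2 (ri _)
  have cen : ∀ x y : E, c.π x ∈ Q → c.π y ∈ centralizer (Q : Set G) → c.π y ∈ Γ → y * x = x * y :=
    fun x y a b d => comm_of c hΓ (fun g hg => (mem_centralizer_iff.1 hg _ a).symm) b d
  obtain ⟨r, t1, t2⟩ := retr c (A := (Q ⊓ centralizer (Q : Set G)) ⊓ Γ) fun x y a b =>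
    cen y x b.1.1 a.1.2 a.2
  obtain ⟨T, hT⟩ := h5 G E c Γ (Γ ⊓ centralizer (Q : Set G)) _ r inf_le_right
    (relIndex_inf_ne_zero (Com.ri_le le_rfl) (ri _))
    (fun g hg => cm_inf (cm_of cP (inf_le_left.trans q1) s2 g) (cj_self fun x => by
      rw [mul_mem_cancel_right hg, mul_mem_cancel_left (inv_mem hg)])) t1 t2
    fun x y hy hx _ => by rw [cen x y hx.1.1 hy.2 hy.1, mul_inv_cancel_right]
  exact ⟨T, hT.conj, hT.inj, fun H a b => hT.sec H a (relIndex_inf_ne_zero
    (relIndex_ne_zero_trans s2 (relIndex_inf_ne_zero b (ri_r a k2))) (Com.ri_le a))⟩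

theorem VCen.sub (hG : VCen G) (H : Subgroup G) [H.FiniteIndex] : VCen H := by
  intro P p1 p2 p3 p4
  have e := P.equivMapOfInjective H.subtype H.subtype_injective
  have fi : ∀ L : Subgroup H, L.FiniteIndex → (L.map H.subtype).FiniteIndex := fun L _ =>
    ⟨by rw [index_map_subtype]; exact mul_ne_zero FiniteIndex.index_ne_zero FiniteIndex.index_ne_zero⟩
  obtain ⟨Q, q1, q2, q3⟩ := hG (P.map H.subtype) ((Group.fg_iff_subgroup_fg _).1
    (have := (Group.fg_iff_subgroup_fg _).2 p1; Group.fg_of_surjective (f := e.toMonoidHom)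
      e.surjective))
    (Pool.Agent.Lib.MP_bbd4b9_ag.HR.Mc.surj e.toMonoidHom e.surjective p2)
    (by
      have := fi _ p3
      refine finiteIndex_of_le (H := (Commensurable.commensurator P).map H.subtype) ?_
      rintro _ ⟨g, hg, rfl⟩
      have h := (Commensurable.commensurator_mem_iff _ g).1 hg
      have a : MulAut.conj (H.subtype g) • P.map H.subtype = (MulAut.conj g • P).map H.subtype := by
        simp only [pointwise_smul_def, map_map]
        congr 1
      refine (Commensurable.commensurator_mem_iff _ _).2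
        (show Commensurable (MulAut.conj (H.subtype g) • P.map H.subtype) _ from a ▸ ?_)
      exact ⟨by rw [relIndex_map_map_of_injective _ _ H.subtype_injective]; exact h.1,
        by rw [relIndex_map_map_of_injective _ _ H.subtype_injective]; exact h.2⟩)
    (by
      rintro L _ φ h ⟨x, x1, x2⟩
      have := p4 (L.subgroupOf H) inferInstance
        (φ.comp ((H.subtype.comp (L.subgroupOf H).subtype).codRestrict L fun y => y.2))
        ⟨x, by rw [mem_subgroupOf, show (x : G) = h from x2]; exact h.2⟩ x1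
      rw [← this]
      exact congrArg φ (Subtype.ext x2.symm))
  refine ⟨Q.comap H.subtype, fun x hx => ?_, ?_, finiteIndex_of_le
    (H := (centralizer (Q : Set G)).subgroupOf H) fun g hg => mem_centralizer_iff.2 fun x hx =>
      Subtype.ext (mem_centralizer_iff.1 (mem_subgroupOf.1 hg) _ hx)⟩
  · obtain ⟨y, y1, y2⟩ := q1 hx
    exact (Subtype.ext y2 : y = x) ▸ y1
  · rwa [relIndex_comap]

end Pool.Agent.Lib.MP_813db1_ag.CM
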