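import Pool.Agent.Lib.MP_813db1_ag.CM.Alg
import Pool.Agent.Lib.MP_bbd4b9_ag.NH.Main

/-! The relative collapse theorem when canonical lifts are given. -/

namespace Pool.Agent.Lib.MP_813db1_ag.CM

open Pool.Agent.Lib.MP_813db1_ag.HS Pool.Agent.Lib.MP_813db1_ag.AS Pool.Agent.Lib.MP_bbd4b9_ag.AR
  Pool.Agent.Lib.MP_bbd4b9_ag.NH
open MeasureTheory Complex Matrix Filter Topology Set Metric
open scoped ContDiff ComplexOrder Manifold

/-- the theorem for an abstract local fibration. -/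
def MainC : Prop := ∀ (ι X Y G τ : Type) [Fintype ι] [DecidableEq ι] [Nonempty ι]
  [TopologicalSpace X] [T2Space X] [CompactSpace X] [ConnectedSpace X] [MeasurableSpace X]
  [BorelSpace X] [ChartedSpace (ι → ℂ) X] [IsManifold 𝓘(ℂ, ι → ℂ) ω X] [TopologicalSpace Y]
  [SimplyConnectedSpace Y] [Group G] [MulAction G Y] [Fintype τ] (K : Kahler ι X) (p : Y → X)
  (η : OpenPartialHomeomorph X (ι → ℂ) → (ι → ℂ) → Matrix ι ι ℂ) (μ : Measure X),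
  IsQuotientCoveringMap p G → NefK K → Exact K p →
  (∀ M : Atl ι X, atlas (ι → ℂ) X ⊆ M.A → (∀ x, M.ch x = chartAt (ι → ℂ) x) →
    ∃ (Γ : Subgroup G) (O : Set X) (W : X → τ → ℂ) (b : τ → ℂ) (r : ℝ) (l : Y → G ⧸ Γ),
      Fib M Γ p (fun x => η (M.ch x) (M.ch x x)) O W b r l ∧ CanAll Γ) → K.IsVol μ →
  0 < ∫ x, (-ric (K.g (chartAt (ι → ℂ) x)) (chartAt (ι → ℂ) x x) +
      η (chartAt (ι → ℂ) x) (chartAt (ι → ℂ) x x)).det.re /
    (K.g (chartAt (ι → ℂ) x) (chartAt (ι → ℂ) x x)).det.re ∂μ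

/-- no cover of small multiplicity near a fibre. -/
def VanC : Prop := ∀ (ι X Y G κ τ : Type) [Fintype ι] [DecidableEq ι] [Nonempty ι]
  [TopologicalSpace X] [T2Space X] [CompactSpace X] [ChartedSpace (ι → ℂ) X] [TopologicalSpace Y]
  [SimplyConnectedSpace Y] [Group G] [MulAction G Y] [Fintype κ] [Fintype τ] (K : Kahler ι X)
  (M : Atl ι X) (g η : X → Mat ι) (p : Y → X) (G' N : Subgroup G) (H : κ → Subgroup G)
  (U : κ → Set X) (k : ∀ i, Y → G ⧸ H i) (O : Set X) (W : X → τ → ℂ) (b b' : τ → ℂ) (r δ : ℝ)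
  (l : Y → G ⧸ G'), atlas (ι → ℂ) X ⊆ M.A → (∀ x, M.ch x = chartAt (ι → ℂ) x) → M.IsK g →
  (∀ e ∈ atlas (ι → ℂ) X, ∀ z ∈ e.target, M.repF g e z = K.g e z) → IsQuotientCoveringMap p G →
  Exact K p → CanAll G' → N.FG → Group.IsVirtuallyNilpotent N →
  Cmn N → (∀ i, N.relIndex (H i) ≠ 0) → Fib M G' p η O W b r l → 0 < δ → ‖b' - b‖ < r →
  IsClosed {x | x ∈ O ∧ ‖W x - b'‖ ≤ δ} → IsOpen {x | x ∈ O ∧ ‖W x - b'‖ < 2 * δ} →
  (∀ i, IsOpen (U i)) → (∀ x, ∃ i, x ∈ U i) →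
  (∀ x ∈ O, ‖W x - b'‖ < 2 * δ →
    {i | x ∈ U i}.ncard + 2 * Fintype.card τ ≤ 2 * Fintype.card ι) →
  (∀ i (γ : G) y, p y ∈ U i → k i (γ • y) = γ • k i y) →
  (∀ i y, p y ∈ U i → ∀ᶠ y' in 𝓝 y, k i y' = k i y) → False

theorem vanC (h1 : Pool.Agent.Lib.MP_813db1_ag.AS.ExtS) (h4 : F12R) (h5 : F3R) : VanC := by
  intro ι X Y G κ τ _ _ _ _ _ _ _ _ _ _ _ _ _ K M g η p G' N H U k O W b b' r δ l hA hc hg hr hq
    ⟨α, a1, a2⟩ g3 n1 n2 n3 hH hF hδ hb c1 c2 u1 u2 u3 k1 k2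
  obtain ⟨E, _, c, u, e1, e2, e3⟩ := h1 ι X Y G M _ p α _ hA
    (fun x => ⟨_, chart_mem_atlas _ x, mem_chart_source _ x⟩) hq a1 a2
  obtain ⟨T, hT⟩ := g3 E c N n1 n2 n3
  obtain ⟨L, lam, l1, l2, l3⟩ := liftQ c G' N T H hT n3 hH
  obtain ⟨a, f, b1, b2⟩ := h4 ι X Y G E κ (fun i => (G ⧸ H i) × (G ⧸ G')) M g _ p α c u L
    (fun i j q q' => lam i j q.1 q'.1 q.2)
    (fun i => U i ∩ {x | x ∈ O ∧ ‖W x - b'‖ < 2 * δ}) (fun i y => (k i y, l y)) hA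
    (fun x => hc x ▸ chart_mem_atlas _ x) hq a1 (fun e he z hz s s1 s2 => by
      rw [hr e he z hz]
      exact a2 e he z hz s s1 s2) e1 e2 e3 l1 l2 (fun i j γ y _ _ => l3 i j γ _ _ _)
    (fun i => (u1 i).inter c2)
    (fun i γ y hy => Prod.ext (k1 i γ y hy.1) (hF.eqv γ y hy.2.1))
    fun i y hy => ((k2 i y hy.1).and (hF.loc y hy.2.1)).mono fun y' h => Prod.ext h.1 h.2
  refine h5 ι X κ τ M g _ a f O W b' δ hg (fun i => (u1 i).inter c2) (fun i x hx => hx.2.1) hF.an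
    hδ c1 (fun x hx h => ?_) (fun i x hx => ?_) b1 b2 (hF.sub b' hb)
  · obtain ⟨i, hi⟩ := u2 x
    exact ⟨i, hi, hx, by linarith⟩
  · refine le_trans (Nat.add_le_add_right (ncard_le_ncard (fun j hj => hj.1) (toFinite _)) _)
      (u3 x hx.2.1 hx.2.2)

theorem mainC0 (hmax : MaxAtlS) (ha : RepA) (hv : VolS) (h1 : SolA) (h2 : SolB) (h3 : GapS)
    (h4 : MetS) (h5 : ScS) (h6 : EAllR) (h7 : VanC) (h8 : SolR) (h10 : TruS) : MainC := by
  intro ι X Y G τ _ _ _ _ _ _ _ _ _ _ _ _ _ _ _ _ K p η μ hp hN hE h9 hμ'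
  obtain ⟨M, g, hA, hch, hg, hrep⟩ := hmax ι X K
  have eg : ∀ x, g x = K.g (chartAt (ι → ℂ) x) (chartAt (ι → ℂ) x x) := fun x => by
    rw [← hrep _ (chart_mem_atlas _ x) _ (mem_chart_target _ x), ← hch, (ha ι X M).repF_self]
  have er : ∀ x, M.ricF g x = ric (K.g (chartAt (ι → ℂ) x)) (chartAt (ι → ℂ) x x) := fun x => by
    rw [Atl.ricF, hch]
    refine Main.ric_cg ?_
    filter_upwards [(chartAt (ι → ℂ) x).open_target.mem_nhds (mem_chart_target _ x)] with w hw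
    rw [hrep _ (chart_mem_atlas _ x) w hw]
  have hnef : NefA M g := fun ε hε => by
    obtain ⟨w, h⟩ := hN ε hε
    refine ⟨w, (ha ι X M).ck_loc ⊤ w fun x => ⟨_, hA (chart_mem_atlas _ x), mem_chart_source _ x,
      ?_⟩, fun x => ?_⟩
    · exact ofRealCLM.contDiff.contDiffAt.comp _ (((h _ (chart_mem_atlas _ x)).1).contDiffAt
        ((chartAt (ι → ℂ) x).open_target.mem_nhds (mem_chart_target _ x)))
    · rw [er, eg, Atl.ddc, hch]
      exact (h _ (chart_mem_atlas _ x)).2 _ (mem_chart_target _ x)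
  obtain ⟨⟨μ0, hμ⟩, hV0⟩ := hv ι X M g hg
  obtain rfl : μ = μ0 := by
    refine (hV0 μ0 hμ).uniq μ fun x => ?_
    rw [hμ _ (M.ch_mem x), hch x, hμ' _ (chart_mem_atlas _ x)]
    congr 1
    refine withDensity_congr_ae ?_
    filter_upwards [ae_restrict_mem (chartAt (ι → ℂ) x).open_target.measurableSet] with w hw
    rw [hrep _ (chart_mem_atlas _ x) w hw]
  have hsol := h1 ι X M g hg hnef
  obtain ⟨Γ, O, W', b, r0, l, hF, hR⟩ := h9 M hA hch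
  by_contra hle
  have hle' : ∫ x, rat (fun y => -M.ricF g y + η (M.ch y) (M.ch y y)) g x ∂μ ≤ 0 := by
    refine le_of_eq_of_le ?_ (not_lt.1 hle)
    refine integral_congr_ae (Eventually.of_forall fun x => ?_)
    simp only [rat, er, eg, hch]
  obtain ⟨hric, -⟩ := h2 ι X M g μ hg hμ
  obtain ⟨C, L, A, r, -, hA0, -, hM⟩ := h4 ι
  obtain ⟨φ, hφ, hgap⟩ := h3 ι X M g hg A (1 / 4) hA0 (by norm_num)
  obtain ⟨D, hD⟩ := diam φ r hφ
  obtain ⟨w, hw, N₀, hsc⟩ := h5 C D (2 * Fintype.card ι)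
  obtain ⟨L', T, hL', t1, t2⟩ := h10 ι X Y G τ M _ p _ O W' b r0 l w hF hw
  obtain ⟨v, hv0, hEA⟩ := h6 ι (τ × Fin 2) (|L| + L') w N₀ hw
  obtain ⟨ε, hε, hsm⟩ := h8 ι X M g _ μ hg hμ hF.cl hF.psd hle' v hv0
  obtain ⟨u, hu⟩ := hsol ε hε
  obtain ⟨hK', hsm'⟩ := hsm u hu
  obtain ⟨⟨ν, hν⟩, hV⟩ := hv ι X M _ hu.2.1
  obtain ⟨⟨ν', hν'⟩, -⟩ := hv ι X M _ hK'
  have := (hV ν hν).fin
  have := (hV ν hν).pos
  obtain ⟨a, γ, a1, a2, -, a3, a4⟩ := trS X Y G p hp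
  obtain ⟨d, m⟩ := hM X G M _ a hu.2.1 (hric ε hε.1 u hu) a1 a2
  have hdi := hD G (Tot X G) X (fun z => z.1) ν m.iso m.geo
    (fun z z' h => ⟨z'.2 * z.2⁻¹, Prod.ext h.symm (by rw [Tot.smul_snd]; group)⟩)
    (ENNReal.toReal_pos (isOpen_univ.measure_ne_zero ν univ_nonempty) (measure_ne_top _ _))
    fun z => by
      obtain ⟨Ψ, p1, p2, p3, p4⟩ := m.bar z.1
      refine ⟨{y | 1 / 4 ≤ Ψ y}, (p1.isClosed_preimage _).measurableSet, ?_, fun x hx => ?_⟩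
      · by_contra hc
        have h0 := hgap ε hε u ν hu hν Ψ (1 / 4) p1 ⟨0, by rintro _ ⟨y, rfl⟩; exact (p2 y).1⟩
          (fun y hy => (p4 y (lt_of_lt_of_le (by norm_num) hy)).1) (not_le.1 hc).le
        refine (Measure.measure_pos_of_mem_nhds ν (s := {y | 1 / 4 + 1 / 4 ≤ Ψ y}) (x := z.1)
          ?_).ne' h0
        filter_upwards [p3] with y hy
        show 1 / 4 + 1 / 4 ≤ Ψ y
        linarith
      · obtain ⟨c, hc⟩ := (p4 x (lt_of_lt_of_le (by norm_num) hx)).2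
        refine ⟨z.2 • Tot.mk x c, rfl, ?_⟩
        rw [← m.iso z.2, Tot.smul_mk, mul_one] at hc
        exact hc.le
  have : Nonempty (Tot X G) := ⟨Tot.mk (Classical.arbitrary X) 1⟩
  obtain ⟨-, ⟨z, hz⟩, N, n1, n2, n3, n4⟩ := hsc G (Tot X G) (1 / 2)
    ⟨m.iso, m.geo, m.cov, m.disc, hdi⟩ le_rfl
  have pd : ∀ x, (M.hm g ε u x).PosDef := (((ha ι X M).isK_iff _).1 hu.2.1).2
  obtain ⟨U, k, t, δ, d1, d2, u1, u2, u3, k1, k2⟩ := hEA X Y G (Tot X G) M _ ν' p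
    (fun y => Tot.mk (p y) (γ y)) z T hp hK' hν' (hsm' ν' hν') m.iso
    (fun c y => by rw [Tot.smul_mk, a3, hp.map_smul])
    (fun y0 => (tr_near hp.continuous a1 a4
      (P := fun x c x' c' => dist (Tot.mk x c) (Tot.mk x' c') ≤
        L * √(nV (M.hm g ε u (p y0)) (M.ch (p y0) x' - M.ch (p y0) x))) y0 (m.lip (p y0))).mono
      fun q hq => hq.trans (((mul_le_mul_of_nonneg_right (le_abs_self L)
        (Real.sqrt_nonneg _)).trans (mul_le_mul (le_add_of_nonneg_right hL')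
          (Real.sqrt_le_sqrt (nv_mono (hF.psd _) _)) (Real.sqrt_nonneg _) (by positivity)))))
    (fun c x0 => (t1 c x0 _ (pd x0)).mono fun q hq => hq.trans
      (mul_le_mul_of_nonneg_right (le_add_of_nonneg_left (abs_nonneg L)) (Real.sqrt_nonneg _)))
    fun y => hz _
  obtain ⟨b', δ', e1, e2, e3, e4, e5⟩ := t2 t d2 δ d1
  refine h7 ι X Y G _ τ K M g _ p _ N _ U k O W' b b' r0 δ' l hA hch hg hrep hp hE hR n1 n2 n3
    (fun i => n4 _) hF e1 e2 e3 e4 u1 u2 (fun x hx h => ?_) k1 k2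
  have := u3 x (e5 x hx h)
  rwa [Fintype.card_prod, Fintype.card_fin, mul_comm (Fintype.card τ)] at this

open AY in
theorem mainC : MainC :=
  mainC0 (maxAtl repA') repA' volS' solA solB gapAll metAll scAll eAllR
    (vanC extS (f12R repA' mat pouAll) (f3R pouAll posL)) solR truS

end Pool.Agent.Lib.MP_813db1_ag.CM
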