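import Pool.Agent.Lib.MP_bbd4b9_ag.AR.Top

/-! Groups that act through a finite group on their commensurated nilpotent subgroups. -/

namespace Pool.Agent.Lib.MP_813db1_ag.CM

open Pool.Agent.Lib.MP_bbd4b9_ag.AR

/-- every finitely generated virtually nilpotent subgroup `P` whose commensurator has finite index
and on which the real characters of the subgroups of finite index are trivial has a subgroup of
finite index whose centraliser has finite index. -/
def VCen (G : Type) [Group G] : Prop :=
  ∀ P : Subgroup G, P.FG → Group.IsVirtuallyNilpotent P →
    (Subgroup.Commensurable.commensurator P).FiniteIndex → MaxQ P →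
    ∃ Q ≤ P, Q.relIndex P ≠ 0 ∧ (Subgroup.centralizer (Q : Set G)).FiniteIndex

end Pool.Agent.Lib.MP_813db1_ag.CM
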